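import Pool.Agent.MP_98f34a_gt.H5.Cover
import Pool.Agent.MP_98f34a_gt.H36.Brouwer
import Pool.Agent.MP_98f34a_gt.H92.Dim
import Pool.Agent.MP_98f34a_gt.H93.Hyper

open Pool.Agent.MP_98f34a_gt

/-- The hyperspace of subcontinua of a dendroid has the fixed point property. -/
theorem Pool.Agent.Results.MP_98f34a_gt.Dendroid.result (X : Type) [MetricSpace X]
    [CompactSpace X] [ConnectedSpace X]
    (harc : ∀ x y : X, x ≠ y → ∃ γ : Path x y, Function.Injective γ)
    (huni : ∀ A B : Set X, IsCompact A → IsConnected A → IsCompact B → IsConnected B →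
      IsPreconnected (A ∩ B))
    (f : {K : TopologicalSpace.NonemptyCompacts X // IsConnected (K : Set X)} →
      {K : TopologicalSpace.NonemptyCompacts X // IsConnected (K : Set X)})
    (hf : Continuous f) : ∃ K, f K = K :=
  H93.hyper H36.brouwer X (H5.coverStmt H92.dim X harc huni) f hf
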